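import Mathlib
import Pool.Agent.Helper92.PO.Stmts

/-!
Module OKR (`MP_c7ded2_lc`).
-/

set_option autoImplicit false

namespace Pool.Agent.Helper92.PO

theorem okr_gen (h1 : ST_STA) (n σ : ℕ) (ξ : Row) (g : ℕ → Lab) :
    ∀ (zs : List Cel) (vs : List Lab) (i : ℕ),
      (∀ t < vs.length, g (i + t) = vs.getD t (0, 0)) →
      (okRun n σ ξ zs (stAt (wd n) g i) vs = true ↔ vs.length = zs.length ∧
        (∀ (t : ℕ) (z : Cel), zs[t]? = some z →
          allowed n σ ξ z (stAt (wd n) g (i + t)) (vs.getD t (0, 0)) = true) ∧
        accept n σ (stAt (wd n) g (i + zs.length)) = true) := by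
  have hw : 0 < wd n := by rw [wd]; exact Nat.succ_pos _
  intro zs
  induction zs with
  | nil =>
    intro vs i _
    cases vs with
    | nil => simp [okRun]
    | cons v vs => simp [okRun]
  | cons z zs ih =>
    intro vs i hg
    cases vs with
    | nil => simp [okRun]
    | cons v vs =>
      have hv : g i = v := by
        have := hg 0 (by simp)
        simpa using this
      have hnx : nxt (stAt (wd n) g i) v = stAt (wd n) g (i + 1) := by
        rw [← hv]
        exact ((h1 (wd n) g hw).2 i).1
      have hg' : ∀ t < vs.length, g (i + 1 + t) = vs.getD t (0, 0) := by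
        intro t ht
        have := hg (t + 1) (by simpa using ht)
        rw [show i + 1 + t = i + (t + 1) by omega, this]
        simp
      have h2 := ih vs (i + 1) hg'
      simp only [okRun, Bool.and_eq_true, hnx, h2, List.length_cons, Nat.add_right_cancel_iff]
      constructor
      · rintro ⟨ha, hl, hb, hc⟩
        refine ⟨hl, ?_, ?_⟩
        · intro t z' hz'
          cases t with
          | zero =>
            simp only [List.getElem?_cons_zero, Option.some.injEq] at hz'
            subst hz'
            simpa using ha
          | succ t =>
            simp only [List.getElem?_cons_succ] at hz'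
            have := hb t z' hz'
            rw [show i + 1 + t = i + (t + 1) by omega] at this
            simpa using this
        · rw [show i + (zs.length + 1) = i + 1 + zs.length by omega]
          exact hc
      · rintro ⟨hl, hb, hc⟩
        refine ⟨?_, hl, ?_, ?_⟩
        · have := hb 0 z (by simp)
          simpa using this
        · intro t z' hz'
          have := hb (t + 1) z' (by simpa using hz')
          rw [show i + (t + 1) = i + 1 + t by omega] at this
          simpa using this
        · rw [show i + 1 + zs.length = i + (zs.length + 1) by omega]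
          exact hc

theorem st_OKR (h1 : ST_STA) (_h2 : ST_CEL) : ST_OKR := by
  intro n σ ξ vs
  have hw : 0 < wd n := by rw [wd]; exact Nat.succ_pos _
  have h0 : st0 n = stAt (wd n) (fun i => vs.getD i (0, 0)) 0 := by
    rw [(h1 (wd n) _ hw).1]
    rfl
  have h3 := okr_gen h1 n σ ξ (fun i => vs.getD i (0, 0)) (cells n) vs 0 (by
    intro t _
    rw [Nat.zero_add])
  rw [h0, h3]
  simp only [Nat.zero_add]

end Pool.Agent.Helper92.PO
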