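import Mathlib
import Pool.Agent.Helper92.PO.Stmts

/-!
Module PWD (`MP_c7ded2_lc`).
-/

set_option autoImplicit false

namespace Pool.Agent.Helper92.PO

open Function Pool.Agent.Helper52.Poly

theorem pwd_sqrt (m : ℕ) :
    ((List.range (m + 1)).filter (fun i => decide (i * i ≤ m))).length = Nat.sqrt m + 1 := by
  have h : ((Finset.range (m + 1)).filter (fun i => i * i ≤ m)).card =
      ((List.range (m + 1)).filter (fun i => decide (i * i ≤ m))).length := rfl
  rw [← h]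
  have h2 : (Finset.range (m + 1)).filter (fun i => i * i ≤ m) =
      Finset.range (Nat.sqrt m + 1) := by
    ext i
    simp only [Finset.mem_filter, Finset.mem_range, Nat.lt_succ_iff]
    constructor
    · rintro ⟨_, h3⟩
      exact Nat.le_sqrt.2 h3
    · intro h3
      exact ⟨h3.trans (Nat.sqrt_le_self m), Nat.le_sqrt.1 h3⟩
  rw [h2, Finset.card_range]

theorem pwd_add {γ : Type} [Enc γ] {f g : γ → ℕ} (hf : UB f) (hg : UB g) :
    UB (fun c => f c + g c) := by
  obtain ⟨hf1, P, hP⟩ := hf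
  obtain ⟨hg1, Q, hQ⟩ := hg
  refine ⟨PF.add hf1 hg1, P + Q, fun c => ?_⟩
  rw [Polynomial.eval_add]
  exact Nat.add_le_add (hP c) (hQ c)

theorem pwd_mul {γ : Type} [Enc γ] {f g : γ → ℕ} (hf : UB f) (hg : UB g) :
    UB (fun c => f c * g c) := by
  obtain ⟨hf1, P, hP⟩ := hf
  obtain ⟨hg1, Q, hQ⟩ := hg
  refine ⟨PF.mul hf1 hg1, P * Q, fun c => ?_⟩
  rw [Polynomial.eval_mul]
  exact Nat.mul_le_mul (hP c) (hQ c)

theorem pwd_const {γ : Type} [Enc γ] (k : ℕ) : UB (fun _ : γ => k) :=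
  ⟨PF.const k, Polynomial.C k, fun c => by rw [Polynomial.eval_C]⟩

theorem pwd_of_le {γ : Type} [Enc γ] {f g : γ → ℕ} (hf : PF f) (hg : UB g)
    (h : ∀ c, f c ≤ g c) : UB f := by
  obtain ⟨_, Q, hQ⟩ := hg
  exact ⟨hf, Q, fun c => (h c).trans (hQ c)⟩

theorem st_PWD (h1 : ST_PRNG) : ST_PWD := by
  intro γ _ m hm
  have hm1 : UB (fun c => m c + 1) := pwd_add hm (pwd_const 1)
  have hwdPF : PF (fun c => wd (m c)) := by
    have hr : PF (fun c => List.range (m c + 1)) := h1 γ _ hm1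
    have hb : PF (fun x : γ × ℕ => decide (x.2 * x.2 ≤ m x.1)) :=
      PF.le (PF.mul PF.snd PF.snd) (hm.1.comp PF.fst)
    have hf := PF.length (PF.filterEnv hr hb)
    refine hf.congr (fun c => ?_)
    congr 1
    exact (pwd_sqrt (m c)).symm
  have hwd : UB (fun c => wd (m c)) := by
    refine pwd_of_le hwdPF hm1 (fun c => ?_)
    rw [wd]
    exact Nat.succ_le_succ (Nat.sqrt_le_self _)
  have hsq : UB (fun c => Nat.sqrt (m c)) := by
    refine pwd_of_le ?_ hwd (fun c => Nat.le_succ _)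
    refine (PF.sub hwdPF (PF.const 1)).congr (fun c => ?_)
    congr 1
  have hJJ : UB (fun c => JJ (m c)) := pwd_add hm (pwd_const 2)
  have hLL : UB (fun c => LL (m c)) := pwd_add (pwd_mul (pwd_const 2) hm) (pwd_const 2)
  exact ⟨hwd, hsq, hJJ, hLL, pwd_mul hJJ hLL⟩

end Pool.Agent.Helper92.PO
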